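import Mathlib
import Pool.Agent.Helper62.DG.F9

/-!
# A global dimension theorem for systems of algebraic differential equations

Let `K ⊆ L` be ordinary differential fields of characteristic zero and
`u₁, …, u_i ∈ K{x₁, …, x_n}`, `i ≤ n`. Give all derivatives of `x_j` the weight `w_j ≥ 1`. Suppose
that `u_m` is a weighted form `û_m` of weight `e_m ≥ 1` plus terms of smaller weight, and that
there are weighted forms `v₁, …, v_{n-i}` over `L` of positive weights such that all `x_j` are
nilpotent modulo `[û₁, …, û_i, v₁, …, v_{n-i}]`. Then `[u₁, …, u_i]` is a proper ideal and some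
minimal prime over it has differential transcendence degree at least `n - i`.
-/

open MvPolynomial

namespace Pool.Agent.Helper62.Kept.GlobalDimension

open Pool.Agent.Helper21.PD Pool.Agent.Helper62.DL Pool.Agent.Helper62.DG

theorem result (K L : Type) [Field K] [CharZero K] [Differential K] [Field L] [Differential L]
    [Algebra K L] [DifferentialAlgebra K L] (n i : ℕ) (hin : i ≤ n)
    (D : Derivation ℤ (MvPolynomial (Fin n × ℕ) K) (MvPolynomial (Fin n × ℕ) K))
    (hC : ∀ a : K, D (C a) = C (Differential.deriv a))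
    (hX : ∀ (j : Fin n) (k : ℕ), D (X (j, k)) = X (j, k + 1))
    (DL : Derivation ℤ (MvPolynomial (Fin n × ℕ) L) (MvPolynomial (Fin n × ℕ) L))
    (hLC : ∀ a : L, DL (C a) = C (Differential.deriv a))
    (hLX : ∀ (j : Fin n) (k : ℕ), DL (X (j, k)) = X (j, k + 1))
    (u : Fin i → MvPolynomial (Fin n × ℕ) K) (w : Fin n → ℕ) (hw : ∀ j, 0 < w j)
    (e : Fin i → ℕ) (he : ∀ m, 0 < e m) (uh : Fin i → MvPolynomial (Fin n × ℕ) L)
    (huh : ∀ m, (uh m).IsWeightedHomogeneous (fun v : Fin n × ℕ => w v.1) (e m))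
    (hhigh : ∀ m, ∀ γ ∈ (MvPolynomial.map (algebraMap K L) (u m) - uh m).support,
      Finsupp.weight (fun v : Fin n × ℕ => w v.1) γ < e m)
    (f : Fin (n - i) → ℕ) (hf : ∀ l, 0 < f l) (v : Fin (n - i) → MvPolynomial (Fin n × ℕ) L)
    (hv : ∀ l, (v l).IsWeightedHomogeneous (fun v : Fin n × ℕ => w v.1) (f l))
    (hfin : ∀ j : Fin n, ∃ N : ℕ, X (j, 0) ^ N ∈ sInf {J : Ideal (MvPolynomial (Fin n × ℕ) L) |
      (∀ m, uh m ∈ J) ∧ (∀ l, v l ∈ J) ∧ ∀ g ∈ J, DL g ∈ J}) :
    ∃ P ∈ (sInf {J : Ideal (MvPolynomial (Fin n × ℕ) K) |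
        (∀ m, u m ∈ J) ∧ ∀ g ∈ J, D g ∈ J}).minimalPrimes,
      ∃ J : Finset (Fin n), J.card = n - i ∧
        ∀ g ∈ supported K {v : Fin n × ℕ | v.1 ∈ J}, g ∈ P → g = 0 := by
  have hchar : CharZero L := charZero_of_injective_algebraMap (algebraMap K L).injective
  let d : Der K :=
    { toFun := fun a => Differential.deriv a
      add' := fun a b => map_add _ _ _
      mul' := fun a b => by
        rw [Derivation.leibniz, smul_eq_mul, smul_eq_mul] }
  let dL : Der L :=
    { toFun := fun a => Differential.deriv a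
      add' := fun a b => map_add _ _ _
      mul' := fun a b => by
        rw [Derivation.leibniz, smul_eq_mul, smul_eq_mul] }
  let D' : Der (MvPolynomial (Fin n × ℕ) K) :=
    { toFun := fun a => D a
      add' := fun a b => map_add _ _ _
      mul' := fun a b => by
        rw [Derivation.leibniz, smul_eq_mul, smul_eq_mul] }
  let DL' : Der (MvPolynomial (Fin n × ℕ) L) :=
    { toFun := fun a => DL a
      add' := fun a b => map_add _ _ _
      mul' := fun a b => by
        rw [Derivation.leibniz, smul_eq_mul, smul_eq_mul] }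
  have hDD : ∀ g, D g = dext d g := fun g =>
    dext_unique d D' (fun a => hC a) (fun v => hX v.1 v.2) g
  have hDDL : ∀ g, DL g = dext dL g := fun g =>
    dext_unique dL DL' (fun a => hLC a) (fun v => hLX v.1 v.2) g
  have hsInf : sInf {J : Ideal (MvPolynomial (Fin n × ℕ) K) |
      (∀ m, u m ∈ J) ∧ ∀ g ∈ J, D g ∈ J} = diffIdeal d u := by
    refine le_antisymm (sInf_le ⟨fun m => Ideal.subset_span ⟨(m, 0), rfl⟩, fun g hg => ?_⟩)
      (le_sInf ?_)
    · rw [hDD]
      exact P15.diffIdeal_stable d u g hg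
    · rintro J ⟨hJu, hJD⟩
      unfold diffIdeal
      rw [Ideal.span_le]
      rintro _ ⟨⟨m, l⟩, rfl⟩
      change (dext d)^[l] (u m) ∈ J
      induction l with
      | zero => exact hJu m
      | succ l ih =>
        rw [Function.iterate_succ_apply', ← hDD]
        exact hJD _ ih
  rw [hsInf]
  have hww : (ww w 0 : Fin n × ℕ → ℕ) = fun v => w v.1 := by
    funext v
    simp
  refine F9.exists_component d dL (algebraMap K L)
    (fun a => (algebraMap.coe_deriv a : _)) hin u w hw e he uh (fun m => ?_)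
    (fun m => ?_) f hf v (fun l => ?_) (fun j => ?_)
  · rw [hww]
    exact huh m
  · rw [hww]
    exact fun γ hγ => hhigh m γ hγ
  · rw [hww]
    exact hv l
  · obtain ⟨N, hN⟩ := hfin j
    refine ⟨N, ?_⟩
    have hle : sInf {J : Ideal (MvPolynomial (Fin n × ℕ) L) |
        (∀ m, uh m ∈ J) ∧ (∀ l, v l ∈ J) ∧ ∀ g ∈ J, DL g ∈ J} ≤
        diffIdeal dL (Sum.elim uh v) := by
      refine sInf_le ⟨fun m => Ideal.subset_span ⟨(Sum.inl m, 0), rfl⟩,
        fun l => Ideal.subset_span ⟨(Sum.inr l, 0), rfl⟩, fun g hg => ?_⟩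
      rw [hDDL]
      exact P15.diffIdeal_stable dL _ g hg
    exact hle hN

end Pool.Agent.Helper62.Kept.GlobalDimension
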