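import Mathlib
import Pool.Agent.Helper62.DL.St.F2

/-!
# A local dimension theorem for systems of algebraic differential equations

Let `K ⊆ L` be ordinary differential fields of characteristic zero, `u₁, …, u_i ∈ K{x₁, …, x_n}`,
`i < n`, and let `ξ ∈ L^n`. Give `x_j^(k)` the weight `w_j + α k`, where `w_j ≥ 1` and `α ≥ 0`, and
`α = 0` unless the derivation of `L` is zero. Suppose that `u_m(ξ + y)` is a weighted form `û_m` of
weight `e_m ≥ 1` plus terms of larger weight, and that there are weighted forms `v₁, …, v_{n-i}` of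
positive weights such that all `y_j` are nilpotent modulo `[û₁, …, û_i, v₁, …, v_{n-i}]`. Then some
minimal prime over `[u₁, …, u_i]` lies in the ideal of `ξ` and has differential transcendence
degree at least `n - i`.

The proof carries differential identities exactly to separably closed differential fields `L` of
characteristic `p` with `[L : L^p]` finite, where the derivation is linear over `L^p`, and uses an
index (the trace of an idempotent of a finite algebra) to produce arcs.
-/

open MvPolynomial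

namespace Pool.Agent.Helper62.Kept.LocalDimension

open Pool.Agent.Helper21.PD Pool.Agent.Helper62.DL

theorem result (K L : Type) [Field K] [CharZero K] [Differential K] [Field L] [Differential L]
    [Algebra K L] [DifferentialAlgebra K L] (n i : ℕ) (hin : i < n)
    (D : Derivation ℤ (MvPolynomial (Fin n × ℕ) K) (MvPolynomial (Fin n × ℕ) K))
    (hC : ∀ a : K, D (C a) = C (Differential.deriv a))
    (hX : ∀ (j : Fin n) (k : ℕ), D (X (j, k)) = X (j, k + 1))
    (DL : Derivation ℤ (MvPolynomial (Fin n × ℕ) L) (MvPolynomial (Fin n × ℕ) L))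
    (hLC : ∀ a : L, DL (C a) = C (Differential.deriv a))
    (hLX : ∀ (j : Fin n) (k : ℕ), DL (X (j, k)) = X (j, k + 1))
    (u : Fin i → MvPolynomial (Fin n × ℕ) K) (ξ : Fin n → L)
    (w : Fin n → ℕ) (hw : ∀ j, 0 < w j)
    (α : ℕ) (hα : α = 0 ∨ ∀ a : L, Differential.deriv a = 0)
    (e : Fin i → ℕ) (he : ∀ m, 0 < e m) (uh : Fin i → MvPolynomial (Fin n × ℕ) L)
    (huh : ∀ m, (uh m).IsWeightedHomogeneous (fun v : Fin n × ℕ => w v.1 + α * v.2) (e m))
    (hlow : ∀ m, ∀ γ ∈ (aeval (fun v : Fin n × ℕ =>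
        (X v + C ((fun a : L => Differential.deriv a)^[v.2] (ξ v.1)) :
          MvPolynomial (Fin n × ℕ) L)) (u m) - uh m).support,
      e m < Finsupp.weight (fun v : Fin n × ℕ => w v.1 + α * v.2) γ)
    (f : Fin (n - i) → ℕ) (hf : ∀ l, 0 < f l) (v : Fin (n - i) → MvPolynomial (Fin n × ℕ) L)
    (hv : ∀ l, (v l).IsWeightedHomogeneous (fun v : Fin n × ℕ => w v.1 + α * v.2) (f l))
    (hfin : ∀ j : Fin n, ∃ N : ℕ, X (j, 0) ^ N ∈ sInf {J : Ideal (MvPolynomial (Fin n × ℕ) L) |
      (∀ m, uh m ∈ J) ∧ (∀ l, v l ∈ J) ∧ ∀ g ∈ J, DL g ∈ J}) :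
    ∃ P ∈ (sInf {J : Ideal (MvPolynomial (Fin n × ℕ) K) |
        (∀ m, u m ∈ J) ∧ ∀ g ∈ J, D g ∈ J}).minimalPrimes,
      (∀ g ∈ P, aeval (fun v : Fin n × ℕ =>
        (fun a : L => Differential.deriv a)^[v.2] (ξ v.1)) g = 0) ∧
      ∃ J : Finset (Fin n), J.card = n - i ∧
        ∀ g ∈ supported K {v : Fin n × ℕ | v.1 ∈ J}, g ∈ P → g = 0 := by
  have hchar : CharZero L := charZero_of_injective_algebraMap (algebraMap K L).injective
  let d : Der K :=
    { toFun := fun a => Differential.deriv a
      add' := fun a b => map_add _ _ _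
      mul' := fun a b => by
        rw [Derivation.leibniz, smul_eq_mul, smul_eq_mul] }
  let dL : Der L :=
    { toFun := fun a => Differential.deriv a
      add' := fun a b => map_add _ _ _
      mul' := fun a b => by
        rw [Derivation.leibniz, smul_eq_mul, smul_eq_mul] }
  let D' : Der (MvPolynomial (Fin n × ℕ) K) :=
    { toFun := fun a => D a
      add' := fun a b => map_add _ _ _
      mul' := fun a b => by
        rw [Derivation.leibniz, smul_eq_mul, smul_eq_mul] }
  let DL' : Der (MvPolynomial (Fin n × ℕ) L) :=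
    { toFun := fun a => DL a
      add' := fun a b => map_add _ _ _
      mul' := fun a b => by
        rw [Derivation.leibniz, smul_eq_mul, smul_eq_mul] }
  have hDD : ∀ g, D g = dext d g := fun g =>
    dext_unique d D' (fun a => hC a) (fun v => hX v.1 v.2) g
  have hDDL : ∀ g, DL g = dext dL g := fun g =>
    dext_unique dL DL' (fun a => hLC a) (fun v => hLX v.1 v.2) g
  have hsInf : sInf {J : Ideal (MvPolynomial (Fin n × ℕ) K) |
      (∀ m, u m ∈ J) ∧ ∀ g ∈ J, D g ∈ J} = diffIdeal d u := by
    refine le_antisymm (sInf_le ⟨fun m => Ideal.subset_span ⟨(m, 0), rfl⟩, fun g hg => ?_⟩)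
      (le_sInf ?_)
    · rw [hDD]
      exact P15.diffIdeal_stable d u g hg
    · rintro J ⟨hJu, hJD⟩
      unfold diffIdeal
      rw [Ideal.span_le]
      rintro _ ⟨⟨m, l⟩, rfl⟩
      change (dext d)^[l] (u m) ∈ J
      induction l with
      | zero => exact hJu m
      | succ l ih =>
        rw [Function.iterate_succ_apply', ← hDD]
        exact hJD _ ih
  rw [hsInf]
  have hmain := F2.exists_component d dL (algebraMap K L)
    (fun a => (algebraMap.coe_deriv a : _)) α hα hin.le u ξ w hw e he uh huh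
    (fun m γ hγ => hlow m γ hγ) f hf v hv (fun j => by
      obtain ⟨N, hN⟩ := hfin j
      refine ⟨N, ?_⟩
      have hle : sInf {J : Ideal (MvPolynomial (Fin n × ℕ) L) |
          (∀ m, uh m ∈ J) ∧ (∀ l, v l ∈ J) ∧ ∀ g ∈ J, DL g ∈ J} ≤
          diffIdeal dL (Sum.elim uh v) := by
        refine sInf_le ⟨fun m => Ideal.subset_span ⟨(Sum.inl m, 0), rfl⟩,
          fun l => Ideal.subset_span ⟨(Sum.inr l, 0), rfl⟩, fun g hg => ?_⟩
        rw [hDDL]
        exact P15.diffIdeal_stable dL _ g hg
      exact hle hN)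
  obtain ⟨P, hP, hPξ, J, hJ, hJP⟩ := hmain
  exact ⟨P, hP, fun g hg => hPξ g hg, J, hJ, hJP⟩

end Pool.Agent.Helper62.Kept.LocalDimension
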